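import Mathlib
import Pool.Agent.H91.CD.ASM2

set_option autoImplicit false

/-!
# An algebraic field of computable dimension exactly two

There is a subfield of the real numbers, algebraic over the rational numbers, which has exactly
two computable presentations up to computable isomorphism.

A computable presentation is a computable structure in the language `(+, ·, 0, 1)`, with domain
any computable set of natural numbers, that is isomorphic to the field. The computable dimension
is the number of classes of the relation of computable isomorphism on the set of all computable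
presentations.
-/

namespace Pool.Agent.Results.MP_67a3ab_lc.AlgebraicFiniteDimension

/-- A computable structure for the language `(+, ·, 0, 1)`: its domain is a computable set of
natural numbers, which contains the two constants and is closed under the two operations. The
operations are given by total computable functions, and only their values on the domain matter:
neither `Presents` nor `CompIso` below looks at any other value. -/
structure CompStruct where
  /-- the domain -/
  dom : Set ℕ
  /-- the addition -/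
  add : ℕ → ℕ → ℕ
  /-- the multiplication -/
  mul : ℕ → ℕ → ℕ
  /-- the constant `0` -/
  zero : ℕ
  /-- the constant `1` -/
  one : ℕ
  dom_computable : ComputablePred fun x : ℕ => x ∈ dom
  add_computable : Computable₂ add
  mul_computable : Computable₂ mul
  zero_mem : zero ∈ dom
  one_mem : one ∈ dom
  add_mem : ∀ x ∈ dom, ∀ y ∈ dom, add x y ∈ dom
  mul_mem : ∀ x ∈ dom, ∀ y ∈ dom, mul x y ∈ dom

/-- The computable structure `C` is isomorphic to the field `F`. -/
def Presents (C : CompStruct) (F : Type) [Field F] : Prop :=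
  ∃ e : ℕ → F, Set.BijOn e C.dom Set.univ ∧ e C.zero = 0 ∧ e C.one = 1 ∧
    (∀ x ∈ C.dom, ∀ y ∈ C.dom, e (C.add x y) = e x + e y) ∧
    (∀ x ∈ C.dom, ∀ y ∈ C.dom, e (C.mul x y) = e x * e y)

/-- The computable presentations of the field `F`: the computable structures isomorphic to `F`. -/
def CompPres (F : Type) [Field F] : Type := {C : CompStruct // Presents C F}

/-- The computable structures `C` and `D` are computably isomorphic: some isomorphism from the
domain of `C` to the domain of `D` is given by a computable function. -/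
def CompIso (C D : CompStruct) : Prop :=
  ∃ f : ℕ → ℕ, Computable f ∧ Set.BijOn f C.dom D.dom ∧ f C.zero = D.zero ∧ f C.one = D.one ∧
    (∀ x ∈ C.dom, ∀ y ∈ C.dom, f (C.add x y) = D.add (f x) (f y)) ∧
    (∀ x ∈ C.dom, ∀ y ∈ C.dom, f (C.mul x y) = D.mul (f x) (f y))

private theorem compIso_refl (C : CompStruct) : CompIso C C :=
  ⟨id, Computable.id, Set.bijOn_id _, rfl, rfl, fun _ _ _ _ => rfl, fun _ _ _ _ => rfl⟩

private theorem compIso_symm {C D : CompStruct} (h : CompIso C D) : CompIso D C := by
  classical
  obtain ⟨f, hf, hb, h0, h1, ha, hm⟩ := h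
  have hex : ∀ y : ℕ, ∃ x : ℕ, y ∈ D.dom → (x ∈ C.dom ∧ f x = y) := by
    intro y
    by_cases hy : y ∈ D.dom
    · obtain ⟨x, hx, hxy⟩ := hb.surjOn hy
      exact ⟨x, fun _ => ⟨hx, hxy⟩⟩
    · exact ⟨0, fun h => absurd h hy⟩
  have hP : ComputablePred fun q : ℕ × ℕ => q.1 ∈ D.dom → (q.2 ∈ C.dom ∧ f q.2 = q.1) := by
    apply Computable.computablePred
    have e1 : Computable fun q : ℕ × ℕ => decide (q.1 ∈ D.dom) :=
      (D.dom_computable.decide).comp Computable.fst
    have e2 : Computable fun q : ℕ × ℕ => decide (q.2 ∈ C.dom) :=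
      (C.dom_computable.decide).comp Computable.snd
    have e3 : Computable fun q : ℕ × ℕ => decide (f q.2 = q.1) :=
      (Primrec.eq.decide.to_comp).comp (hf.comp Computable.snd) Computable.fst
    have e4 : Computable fun q : ℕ × ℕ => (!decide (q.1 ∈ D.dom) || (decide (q.2 ∈ C.dom) &&
        decide (f q.2 = q.1))) :=
      (Primrec.or.to_comp).comp ((Primrec.not.to_comp).comp e1)
        ((Primrec.and.to_comp).comp e2 e3)
    refine e4.of_eq fun q => ?_
    by_cases c1 : q.1 ∈ D.dom <;> by_cases c2 : q.2 ∈ C.dom <;> by_cases c3 : f q.2 = q.1 <;>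
      simp [c1, c2, c3]
  have hg : Computable fun y => Nat.find (hex y) :=
    Computable.find (P := fun y x : ℕ => y ∈ D.dom → (x ∈ C.dom ∧ f x = y)) hP hex
  have hs : ∀ y ∈ D.dom, Nat.find (hex y) ∈ C.dom ∧ f (Nat.find (hex y)) = y :=
    fun y hy => Nat.find_spec (hex y) hy
  have key : ∀ x ∈ C.dom, Nat.find (hex (f x)) = x := by
    intro x hx
    obtain ⟨h2, h3⟩ := hs (f x) (hb.mapsTo hx)
    exact hb.injOn h2 hx h3
  refine ⟨fun y => Nat.find (hex y), hg, ⟨fun y hy => (hs y hy).1, ?_, ?_⟩, ?_, ?_, ?_, ?_⟩
  · intro y hy z hz hyz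
    simp only at hyz
    rw [← (hs y hy).2, hyz, (hs z hz).2]
  · intro x hx
    exact ⟨f x, hb.mapsTo hx, key x hx⟩
  · simp only
    rw [← h0, key _ C.zero_mem]
  · simp only
    rw [← h1, key _ C.one_mem]
  · intro x hx y hy
    simp only
    have e1 : D.add x y = f (C.add (Nat.find (hex x)) (Nat.find (hex y))) := by
      rw [ha _ (hs x hx).1 _ (hs y hy).1, (hs x hx).2, (hs y hy).2]
    rw [e1, key _ (C.add_mem _ (hs x hx).1 _ (hs y hy).1)]
  · intro x hx y hy
    simp only
    have e1 : D.mul x y = f (C.mul (Nat.find (hex x)) (Nat.find (hex y))) := by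
      rw [hm _ (hs x hx).1 _ (hs y hy).1, (hs x hx).2, (hs y hy).2]
    rw [e1, key _ (C.mul_mem _ (hs x hx).1 _ (hs y hy).1)]

private theorem compIso_trans {C D E : CompStruct} (h : CompIso C D) (h' : CompIso D E) :
    CompIso C E := by
  obtain ⟨f, hf, hb, h0, h1, ha, hm⟩ := h
  obtain ⟨g, hg, hb', h0', h1', ha', hm'⟩ := h'
  refine ⟨g ∘ f, hg.comp hf, hb'.comp hb, ?_, ?_, ?_, ?_⟩
  · simp only [Function.comp_apply]
    rw [h0, h0']
  · simp only [Function.comp_apply]
    rw [h1, h1']
  · intro x hx y hy
    simp only [Function.comp_apply]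
    rw [ha x hx y hy, ha' _ (hb.mapsTo hx) _ (hb.mapsTo hy)]
  · intro x hx y hy
    simp only [Function.comp_apply]
    rw [hm x hx y hy, hm' _ (hb.mapsTo hx) _ (hb.mapsTo hy)]

/-- Computable isomorphism, as an equivalence relation on the computable presentations of `F`. -/
def isoSetoid (F : Type) [Field F] : Setoid (CompPres F) where
  r C D := CompIso C.1 D.1
  iseqv := ⟨fun C => compIso_refl C.1, fun h => compIso_symm h, fun h h' => compIso_trans h h'⟩

/-- The computable dimension of the field `F`: the number of its computable presentations up to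
computable isomorphism (a natural number, or `⊤` if there are infinitely many). -/
noncomputable def compDim (F : Type) [Field F] : ℕ∞ := ENat.card (Quotient (isoSetoid F))

/-- The structure on all of `ℕ` given by two computable operations that make it a copy of `F`. -/
private noncomputable def ofCopy {F : Type} [Field F] (a m : ℕ → ℕ → ℕ) (ha : Computable₂ a)
    (hm : Computable₂ m) (e : ℕ ≃ F) : CompStruct where
  dom := Set.univ
  add := a
  mul := m
  zero := e.symm 0
  one := e.symm 1
  dom_computable := by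
    classical
    exact Computable.computablePred ((Computable.const true).of_eq fun x => by simp)
  add_computable := ha
  mul_computable := hm
  zero_mem := trivial
  one_mem := trivial
  add_mem := fun _ _ _ _ => trivial
  mul_mem := fun _ _ _ _ => trivial

private theorem ofCopy_presents {F : Type} [Field F] (a m : ℕ → ℕ → ℕ) (ha : Computable₂ a)
    (hm : Computable₂ m) (e : ℕ ≃ F)
    (he : ∀ x y : ℕ, e (a x y) = e x + e y ∧ e (m x y) = e x * e y) :
    Presents (ofCopy a m ha hm e) F :=
  ⟨e, Set.bijOn_univ.2 e.bijective, e.apply_symm_apply 0, e.apply_symm_apply 1,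
    fun x _ y _ => (he x y).1, fun x _ y _ => (he x y).2⟩

/-- An injection between copies of fields that respects both operations respects `0` and `1`. -/
private theorem consts {F F' : Type} [Field F] [Field F'] {C D : CompStruct} {e : ℕ → F}
    {e' : ℕ → F'} (he : Set.BijOn e C.dom Set.univ) (he' : Set.BijOn e' D.dom Set.univ)
    (z : e C.zero = 0) (o : e C.one = 1) (z' : e' D.zero = 0) (o' : e' D.one = 1)
    (ea : ∀ x ∈ C.dom, ∀ y ∈ C.dom, e (C.add x y) = e x + e y)
    (em : ∀ x ∈ C.dom, ∀ y ∈ C.dom, e (C.mul x y) = e x * e y)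
    (ea' : ∀ x ∈ D.dom, ∀ y ∈ D.dom, e' (D.add x y) = e' x + e' y)
    (em' : ∀ x ∈ D.dom, ∀ y ∈ D.dom, e' (D.mul x y) = e' x * e' y)
    {f : ℕ → ℕ} (hf : Set.BijOn f C.dom D.dom)
    (fa : ∀ x ∈ C.dom, ∀ y ∈ C.dom, f (C.add x y) = D.add (f x) (f y))
    (fm : ∀ x ∈ C.dom, ∀ y ∈ C.dom, f (C.mul x y) = D.mul (f x) (f y)) :
    f C.zero = D.zero ∧ f C.one = D.one := by
  have c0 : C.add C.zero C.zero = C.zero := by
    apply he.injOn (C.add_mem _ C.zero_mem _ C.zero_mem) C.zero_mem
    rw [ea _ C.zero_mem _ C.zero_mem, z, add_zero]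
  have c1 : C.mul C.one C.one = C.one := by
    apply he.injOn (C.mul_mem _ C.one_mem _ C.one_mem) C.one_mem
    rw [em _ C.one_mem _ C.one_mem, o, mul_one]
  have f0 : e' (f C.zero) = 0 := by
    have h := ea' _ (hf.mapsTo C.zero_mem) _ (hf.mapsTo C.zero_mem)
    rw [← fa _ C.zero_mem _ C.zero_mem, c0] at h
    linear_combination -h
  have g0 : f C.zero = D.zero :=
    he'.injOn (hf.mapsTo C.zero_mem) D.zero_mem (f0.trans z'.symm)
  refine ⟨g0, ?_⟩
  have h := em' _ (hf.mapsTo C.one_mem) _ (hf.mapsTo C.one_mem)
  rw [← fm _ C.one_mem _ C.one_mem, c1] at h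
  have hne : e' (f C.one) ≠ 0 := by
    intro h0
    have h1 : f C.one = f C.zero :=
      he'.injOn (hf.mapsTo C.one_mem) (hf.mapsTo C.zero_mem) (h0.trans f0.symm)
    have h2 : C.one = C.zero := hf.injOn C.one_mem C.zero_mem h1
    rw [h2, z] at o
    exact zero_ne_one o
  have h3 : e' (f C.one) = 1 := by
    have h4 : e' (f C.one) * (e' (f C.one) - 1) = 0 := by linear_combination -h
    rcases mul_eq_zero.1 h4 with h5 | h5
    · exact absurd h5 hne
    · exact sub_eq_zero.1 h5
  exact he'.injOn (hf.mapsTo C.one_mem) D.one_mem (h3.trans o'.symm)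

/-- Every computable presentation of an infinite field, on any computable domain, has a
computable isomorphic copy with domain `ℕ`. -/
private theorem to_nat {F : Type} [Field F] [Infinite F] (C : CompStruct) (h : Presents C F) :
    ∃ (a m : ℕ → ℕ → ℕ) (ha : Computable₂ a) (hm : Computable₂ m) (e : ℕ ≃ F),
      (∀ x y : ℕ, e (a x y) = e x + e y ∧ e (m x y) = e x * e y) ∧
      CompIso C (ofCopy a m ha hm e) := by
  classical
  obtain ⟨ε, hb, hz, ho, hadd, hmul⟩ := h
  -- reduction to the domain
  let red : ℕ → ℕ := fun x => cond (decide (x ∈ C.dom)) x C.zero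
  have hred : Computable red :=
    Computable.cond C.dom_computable.decide Computable.id (Computable.const _)
  have hredmem : ∀ x, red x ∈ C.dom := by
    intro x
    by_cases hx : x ∈ C.dom
    · simp only [red, hx, decide_true, cond_true]
    · simp only [red, hx, decide_false, cond_false]
      exact C.zero_mem
  have hredeq : ∀ x ∈ C.dom, red x = x := by
    intro x hx
    simp only [red, hx, decide_true, cond_true]
  have hsurj : Function.Surjective fun x => ε (red x) := by
    intro y
    obtain ⟨x, hx, hxy⟩ := hb.surjOn (Set.mem_univ y)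
    exact ⟨x, by simp only [hredeq x hx, hxy]⟩
  have hE : ComputablePred fun p : ℕ × ℕ => ε (red p.1) = ε (red p.2) := by
    apply Computable.computablePred
    have e1 : Computable fun p : ℕ × ℕ => decide (red p.1 = red p.2) :=
      (Primrec.eq.decide.to_comp).comp (hred.comp Computable.fst) (hred.comp Computable.snd)
    refine e1.of_eq fun p => ?_
    exact decide_eq_decide.2 ⟨fun h => by rw [h], fun h => hb.injOn (hredmem _) (hredmem _) h⟩
  obtain ⟨e, q, idx, hq, hidx, h1, h2⟩ :=
    Pool.Agent.H91.CD.COMP.bijective_naming (fun x => ε (red x)) hsurj hE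
  have hrq : Computable fun n => red (q n) := hred.comp hq
  have ha : Computable₂ fun x y => idx (C.add (red (q x)) (red (q y))) :=
    hidx.comp (C.add_computable.comp (hrq.comp Computable.fst) (hrq.comp Computable.snd))
  have hm : Computable₂ fun x y => idx (C.mul (red (q x)) (red (q y))) :=
    hidx.comp (C.mul_computable.comp (hrq.comp Computable.fst) (hrq.comp Computable.snd))
  have he : ∀ x y : ℕ, e (idx (C.add (red (q x)) (red (q y)))) = e x + e y ∧
      e (idx (C.mul (red (q x)) (red (q y)))) = e x * e y := by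
    intro x y
    constructor
    · rw [h2, hredeq _ (C.add_mem _ (hredmem _) _ (hredmem _)),
        hadd _ (hredmem _) _ (hredmem _), h1, h1]
    · rw [h2, hredeq _ (C.mul_mem _ (hredmem _) _ (hredmem _)),
        hmul _ (hredmem _) _ (hredmem _), h1, h1]
  have hcls : ∀ x ∈ C.dom, e (idx x) = ε x := fun x hx => by rw [h2, hredeq x hx]
  refine ⟨_, _, ha, hm, e, he, ?_⟩
  have hbij : Set.BijOn idx C.dom Set.univ := by
    refine ⟨fun _ _ => trivial, ?_, ?_⟩
    · intro x hx y hy hxy
      apply hb.injOn hx hy
      rw [← hcls x hx, ← hcls y hy, hxy]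
    · intro n _
      refine ⟨red (q n), hredmem _, ?_⟩
      apply e.injective
      rw [hcls _ (hredmem _), h1]
  have fa : ∀ x ∈ C.dom, ∀ y ∈ C.dom, idx (C.add x y) =
      idx (C.add (red (q (idx x))) (red (q (idx y)))) := by
    intro x hx y hy
    apply e.injective
    rw [(he _ _).1, hcls _ (C.add_mem _ hx _ hy), hadd _ hx _ hy, hcls _ hx, hcls _ hy]
  have fm : ∀ x ∈ C.dom, ∀ y ∈ C.dom, idx (C.mul x y) =
      idx (C.mul (red (q (idx x))) (red (q (idx y)))) := by
    intro x hx y hy
    apply e.injective
    rw [(he _ _).2, hcls _ (C.mul_mem _ hx _ hy), hmul _ hx _ hy, hcls _ hx, hcls _ hy]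
  obtain ⟨c0, c1⟩ := consts (F := F) (F' := F) (C := C) (D := ofCopy _ _ ha hm e) hb
    (Set.bijOn_univ.2 e.bijective) hz ho (e.apply_symm_apply 0)
    (e.apply_symm_apply 1) hadd hmul (fun x _ y _ => (he x y).1) (fun x _ y _ => (he x y).2)
    hbij fa fm
  exact ⟨idx, hidx, hbij, c0, c1, fa, fm⟩

/-- There is an algebraic field of computable dimension exactly two; it can be taken to be a
subfield of the real numbers. -/
theorem result : ∃ F : Subfield ℝ, (∀ z ∈ F, IsAlgebraic ℚ z) ∧ compDim F = 2 := by
  classical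
  obtain ⟨F, halg, A, M, hcopy, hno, hall⟩ :=
    Pool.Agent.H91.CD.assemble2 Pool.Agent.H91.CD.dynamics
  have hinf : Infinite F := Infinite.of_injective (fun n : ℕ => (n : F)) Nat.cast_injective
  refine ⟨F, fun z hz => ?_, ?_⟩
  · have h1 := halg.isAlgebraic (⟨z, hz⟩ : F)
    exact h1.algebraMap
  choose hA hM e he using hcopy
  let P : Fin 2 → CompPres F := fun i =>
    ⟨ofCopy (A i) (M i) (hA i) (hM i) (e i), ofCopy_presents _ _ _ _ _ (he i)⟩
  have hne : ¬ CompIso (P 0).1 (P 1).1 := by
    rintro ⟨f, hf, hb, -, -, fa, fm⟩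
    have hb' : Function.Bijective f := Set.bijOn_univ.1 hb
    exact hno 0 1 (by decide) ⟨Equiv.ofBijective f hb', hf,
      fun x y => ⟨fa x trivial y trivial, fm x trivial y trivial⟩⟩
  have hcov : ∀ C : CompPres F, ∃ i : Fin 2, CompIso C.1 (P i).1 := by
    rintro ⟨C, hC⟩
    obtain ⟨a, m, ha, hm, e', he', hCa⟩ := to_nat C hC
    obtain ⟨i, f, hf, hfo⟩ := hall a m ha hm ⟨e', he'⟩
    refine ⟨i, compIso_trans hCa ?_⟩
    have hb : Set.BijOn f (ofCopy a m ha hm e').dom (P i).1.dom :=
      Set.bijOn_univ.2 f.bijective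
    obtain ⟨c0, c1⟩ := consts (F := F) (F' := F) (C := ofCopy a m ha hm e') (D := (P i).1)
      (Set.bijOn_univ.2 e'.bijective)
      (Set.bijOn_univ.2 (e i).bijective)
      (e'.apply_symm_apply 0) (e'.apply_symm_apply 1) ((e i).apply_symm_apply 0)
      ((e i).apply_symm_apply 1) (fun x _ y _ => (he' x y).1) (fun x _ y _ => (he' x y).2)
      (fun x _ y _ => (he i x y).1) (fun x _ y _ => (he i x y).2) hb
      (fun x _ y _ => (hfo x y).1) (fun x _ y _ => (hfo x y).2)
    exact ⟨f, hf, hb, c0, c1, fun x _ y _ => (hfo x y).1, fun x _ y _ => (hfo x y).2⟩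
  unfold compDim
  rw [← Set.encard_univ, Set.encard_eq_two]
  refine ⟨Quotient.mk (isoSetoid F) (P 0), Quotient.mk (isoSetoid F) (P 1), ?_, ?_⟩
  · intro h
    exact hne (Quotient.exact h)
  · symm
    rw [Set.eq_univ_iff_forall]
    intro c
    induction c using Quotient.inductionOn with
    | h C =>
      obtain ⟨i, hi⟩ := hcov C
      fin_cases i
      · exact Or.inl (Quotient.sound (s := isoSetoid F) hi)
      · exact Or.inr (Quotient.sound (s := isoSetoid F) hi)

end Pool.Agent.Results.MP_67a3ab_lc.AlgebraicFiniteDimension
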